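import Mathlib

open Finset

namespace Pool.Agent.H583Z.BD

lemma sum_pow_le (k m : ℕ) :
    ((k:ℝ)+1) * ∑ i ∈ range m, (i:ℝ)^k ≤ (m:ℝ)^(k+1) := by
  induction m with
  | zero => simp
  | succ m ih =>
    rw [sum_range_succ, mul_add]
    have h : (m:ℝ)^(k+1) + ((k+1 : ℕ):ℝ) * (m:ℝ)^(k+1-1) * 1 ≤ ((m:ℝ)+1)^(k+1) :=
      pow_add_mul_le_add_pow (by positivity) (by positivity) (k+1)
    simp only [Nat.add_sub_cancel, mul_one] at h
    push_cast at h ⊢
    linarith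

lemma row_le (m k : ℕ) (t : ℕ) (ht : t < m) :
    ∑ a ∈ range m, ((m:ℝ) - |(t:ℝ) - a|)^k ≤ (m:ℝ)^k + 2 * ∑ i ∈ range m, (i:ℝ)^k := by
  have hsplit : range m = insert t ((range t) ∪ (Ioo t m)) := by
    ext a; simp only [mem_range, mem_insert, mem_union, mem_Ioo]; omega
  have hd : Disjoint (range t) (Ioo t m) := by
    rw [Finset.disjoint_left]; intro a ha hb; simp only [mem_range, mem_Ioo] at ha hb; omega
  have hn : t ∉ (range t) ∪ (Ioo t m) := by simp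
  have h1 : ∑ a ∈ range t, ((m:ℝ) - |(t:ℝ) - a|)^k ≤ ∑ i ∈ range m, (i:ℝ)^k := by
    have : ∑ a ∈ range t, ((m:ℝ) - |(t:ℝ) - a|)^k
        = ∑ i ∈ (range t).image (fun a => m - t + a), (i:ℝ)^k := by
      rw [sum_image (by intro a _ b _ h; simpa using h)]
      refine sum_congr rfl fun a ha => ?_
      have ha' : (a:ℝ) ≤ t := by exact_mod_cast (mem_range.1 ha).le
      rw [abs_of_nonneg (by linarith)]
      push_cast [Nat.cast_sub ht.le]
      ring_nf
    rw [this]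
    refine sum_le_sum_of_subset_of_nonneg ?_ (fun i _ _ => by positivity)
    intro i hi
    obtain ⟨a, ha, rfl⟩ := mem_image.1 hi
    simp only [mem_range] at ha ⊢; omega
  have h2 : ∑ a ∈ Ioo t m, ((m:ℝ) - |(t:ℝ) - a|)^k ≤ ∑ i ∈ range m, (i:ℝ)^k := by
    have : ∑ a ∈ Ioo t m, ((m:ℝ) - |(t:ℝ) - a|)^k
        = ∑ i ∈ (Ioo t m).image (fun a => m + t - a), (i:ℝ)^k := by
      rw [sum_image (by
        intro a ha b hb h
        simp only [coe_Ioo, Set.mem_Ioo] at ha hb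
        simp only at h; omega)]
      refine sum_congr rfl fun a ha => ?_
      have ha0 := mem_Ioo.1 ha
      have ha' : (t:ℝ) ≤ a := by exact_mod_cast ha0.1.le
      rw [abs_of_nonpos (by linarith)]
      push_cast [Nat.cast_sub (show a ≤ m + t by omega)]
      ring_nf
    rw [this]
    refine sum_le_sum_of_subset_of_nonneg ?_ (fun i _ _ => by positivity)
    intro i hi
    obtain ⟨a, ha, rfl⟩ := mem_image.1 hi
    simp only [mem_range, mem_Ioo] at ha ⊢; omega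
  conv_lhs => rw [hsplit]
  rw [sum_insert hn, sum_union hd]
  simp only [sub_self, abs_zero, sub_zero]
  linarith

/-- the sign seen by a point at level `p` when the threshold is `t` -/
def sg (p t : ℕ) : ℤˣ := if t ≤ p then -1 else 1

lemma corr_aux (m t t' : ℕ) (h : t ≤ t') (ht' : t' < m) :
    ∑ p ∈ range (2*m), (((sg p t : ℤˣ) : ℤ) : ℝ) * (((sg p t' : ℤˣ) : ℤ) : ℝ)
      = 2 * ((m:ℝ) - ((t':ℝ) - t)) := by
  have : ∀ p ∈ range (2*m), (((sg p t : ℤˣ) : ℤ) : ℝ) * (((sg p t' : ℤˣ) : ℤ) : ℝ)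
      = 1 - 2 * (if p ∈ Ico t t' then 1 else 0) := by
    intro p _
    unfold sg
    by_cases h1 : t ≤ p <;> by_cases h2 : t' ≤ p
    · have : p ∉ Ico t t' := by simp; omega
      simp [h1, h2, this]
    · have : p ∈ Ico t t' := by simp; omega
      simp [h1, h2, this]; norm_num
    · omega
    · have : p ∉ Ico t t' := by simp; omega
      simp [h1, h2, this]
  rw [sum_congr rfl this, sum_sub_distrib, ← mul_sum, sum_ite_mem]
  have hI : range (2*m) ∩ Ico t t' = Ico t t' := by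
    ext p; simp only [mem_inter, mem_range, mem_Ico]; omega
  rw [hI]
  simp only [sum_const, card_range, Nat.card_Ico, nsmul_eq_mul, mul_one]
  push_cast [Nat.cast_sub h]
  ring

lemma corr (m t t' : ℕ) (ht : t < m) (ht' : t' < m) :
    ∑ p ∈ range (2*m), (((sg p t : ℤˣ) : ℤ) : ℝ) * (((sg p t' : ℤˣ) : ℤ) : ℝ)
      = 2 * ((m:ℝ) - |(t:ℝ) - t'|) := by
  rcases le_total t t' with h | h
  · rw [corr_aux m t t' h ht', abs_of_nonpos (by have : (t:ℝ) ≤ t' := by exact_mod_cast h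
                                                 linarith)]
    ring
  · rw [sum_congr rfl (fun p _ => mul_comm _ _), corr_aux m t' t h ht,
      abs_of_nonneg (by have : (t':ℝ) ≤ t := by exact_mod_cast h
                        linarith)]

lemma ind_eq (u v : ℤˣ) :
    (if u = v then (1:ℝ) else 0) = (1 + ((u:ℤ):ℝ) * ((v:ℤ):ℝ)) / 2 := by
  rcases Int.units_eq_one_or u with rfl | rfl <;> rcases Int.units_eq_one_or v with rfl | rfl <;>
    simp

/-- the vector of signs produced by the thresholds `t` -/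
def Phi {B : Type} {d m : ℕ} (ω : B → Fin d → Fin (2*m)) (t : Fin d → Fin m) : B → ℤˣ :=
  fun b => ∏ j, sg (ω b j) (t j)

lemma coll_sum (B : Type) [Fintype B] [DecidableEq B] (d m : ℕ) (t t' : Fin d → Fin m) :
    ∑ ω : B → Fin d → Fin (2*m), (if Phi ω t = Phi ω t' then (1:ℝ) else 0)
      = ((((2*m : ℕ):ℝ)^d + ∏ j, 2 * ((m:ℝ) - |((t j : ℕ):ℝ) - (t' j : ℕ)|)) / 2)
          ^ Fintype.card B := by
  have h1 : ∀ ω : B → Fin d → Fin (2*m), (if Phi ω t = Phi ω t' then (1:ℝ) else 0)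
      = ∏ b, (1 + ∏ j, (((sg (ω b j) (t j) : ℤˣ) : ℤ) : ℝ) *
          (((sg (ω b j) (t' j) : ℤˣ) : ℤ) : ℝ)) / 2 := by
    intro ω
    have : (if Phi ω t = Phi ω t' then (1:ℝ) else 0)
        = ∏ b, (if Phi ω t b = Phi ω t' b then (1:ℝ) else 0) := by
      rw [prod_ite_zero]
      simp [funext_iff]
    rw [this]
    refine prod_congr rfl fun b _ => ?_
    rw [ind_eq]
    simp [Phi, prod_mul_distrib]
  rw [sum_congr rfl (fun ω _ => h1 ω)]
  have h2 := Finset.prod_univ_sum (fun _ : B => (univ : Finset (Fin d → Fin (2*m))))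
    (fun _ w => (1 + ∏ j, (((sg (w j) (t j) : ℤˣ) : ℤ) : ℝ) *
          (((sg (w j) (t' j) : ℤˣ) : ℤ) : ℝ)) / 2)
  rw [Fintype.piFinset_univ] at h2
  rw [← h2, prod_const, card_univ]
  congr 1
  rw [← sum_div, sum_add_distrib]
  congr 2
  · simp
  · have h3 := Finset.prod_univ_sum (fun _ : Fin d => (univ : Finset (Fin (2*m))))
      (fun j p => (((sg p (t j) : ℤˣ) : ℤ) : ℝ) * (((sg p (t' j) : ℤˣ) : ℤ) : ℝ))
    rw [Fintype.piFinset_univ] at h3
    rw [← h3]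
    refine prod_congr rfl fun j _ => ?_
    rw [← corr m (t j) (t' j) (t j).2 (t' j).2]
    exact Fin.sum_univ_eq_sum_range
      (fun p => (((sg p (t j) : ℤˣ) : ℤ) : ℝ) * (((sg p (t' j) : ℤˣ) : ℤ) : ℝ)) (2*m)

lemma row_w (n s k t : ℕ) (ht : t < n+1) (hk : k ≤ n) :
    ∑ a ∈ range (n+1), ((((n+1 : ℕ):ℝ) - |(t:ℝ) - a|) / ((n+1 : ℕ):ℝ))^k
      ≤ ((n+1 : ℕ):ℝ) * (if k < 3*2^s then 1 else 1 / 2^s) := by
  set m := n+1 with hm
  have hm0 : (0:ℝ) < (m:ℝ) := by positivity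
  split_ifs with hK
  · calc _ ≤ ∑ a ∈ range m, (1:ℝ) := by
          refine sum_le_sum fun a ha => pow_le_one₀ ?_ ?_
          · refine div_nonneg ?_ hm0.le
            have h1 : (a:ℝ) < m := by exact_mod_cast mem_range.1 ha
            have h2 : (t:ℝ) < m := by exact_mod_cast ht
            have h3 : (0:ℝ) ≤ a := by positivity
            have h4 : (0:ℝ) ≤ t := by positivity
            have : |(t:ℝ) - a| ≤ m := abs_le.2 ⟨by linarith, by linarith⟩
            linarith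
          · rw [div_le_one hm0]; linarith [abs_nonneg ((t:ℝ) - a)]
      _ = _ := by simp
  · simp only [div_pow]
    rw [← sum_div, div_le_iff₀ (by positivity)]
    have h1 := row_le m k t ht
    have h2 := sum_pow_le k m
    have hk1 : (3:ℝ) * 2^s ≤ (k:ℝ) + 1 := by
      have : 3 * 2^s ≤ k + 1 := by omega
      exact_mod_cast this
    have hk2 : (k:ℝ) + 1 ≤ m := by
      have : k + 1 ≤ m := by omega
      exact_mod_cast this
    set S := ∑ i ∈ range m, (i:ℝ)^k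
    have hP : (0:ℝ) < (m:ℝ)^k := by positivity
    have h2s : (0:ℝ) < 2^s := by positivity
    have hS0 : 0 ≤ S := sum_nonneg fun i _ => by positivity
    rw [pow_succ] at h2
    have h3 : ((k:ℝ)+1) * ((m:ℝ)^k + 2 * S) ≤ 3 * ((m:ℝ)^k * m) := by nlinarith
    have h4 : (3:ℝ) * 2^s * ((m:ℝ)^k + 2 * S) ≤ 3 * ((m:ℝ)^k * m) :=
      le_trans (mul_le_mul_of_nonneg_right hk1 (by positivity)) h3
    have h5 : (m:ℝ)^k + 2 * S ≤ m * (1 / 2^s) * (m:ℝ)^k := by
      have : (m:ℝ) * (1 / 2^s) * (m:ℝ)^k = ((m:ℝ)^k * m) / 2^s := by ring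
      rw [this, le_div_iff₀ h2s]; nlinarith
    exact h1.trans h5

lemma moment_le (n s d k : ℕ) (hk : k ≤ n) :
    ∑ t : Fin d → Fin (n+1), ∑ t' : Fin d → Fin (n+1),
      (∏ j, ((((n+1 : ℕ):ℝ) - |((t j : ℕ):ℝ) - (t' j : ℕ)|) / ((n+1 : ℕ):ℝ)))^k
      ≤ ((n+1 : ℕ):ℝ)^(2*d) * (if k < 3*2^s then 1 else 1 / 2^s)^d := by
  have h : ∀ t : Fin d → Fin (n+1), ∑ t' : Fin d → Fin (n+1),
      (∏ j, ((((n+1 : ℕ):ℝ) - |((t j : ℕ):ℝ) - (t' j : ℕ)|) / ((n+1 : ℕ):ℝ)))^k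
      ≤ (((n+1 : ℕ):ℝ) * (if k < 3*2^s then 1 else 1 / 2^s))^d := by
    intro t
    have h3 := Finset.prod_univ_sum (fun _ : Fin d => (univ : Finset (Fin (n+1))))
      (fun j a => ((((n+1 : ℕ):ℝ) - |((t j : ℕ):ℝ) - (a : ℕ)|) / ((n+1 : ℕ):ℝ))^k)
    rw [Fintype.piFinset_univ] at h3
    simp only [← prod_pow]
    rw [← h3]
    have hc : (((n+1 : ℕ):ℝ) * (if k < 3*2^s then 1 else 1 / 2^s))^d
        = ∏ _j : Fin d, (((n+1 : ℕ):ℝ) * (if k < 3*2^s then 1 else 1 / 2^s)) := by simp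
    rw [hc]
    refine prod_le_prod (fun j _ => sum_nonneg fun a _ => pow_nonneg (div_nonneg ?_ (by positivity)) _)
      (fun j _ => ?_)
    · have h1 : ((a:ℕ):ℝ) < ((n+1 : ℕ):ℝ) := by exact_mod_cast a.2
      have h2 : ((t j:ℕ):ℝ) < ((n+1 : ℕ):ℝ) := by exact_mod_cast (t j).2
      have h3 : (0:ℝ) ≤ ((a:ℕ):ℝ) := by positivity
      have h4 : (0:ℝ) ≤ ((t j:ℕ):ℝ) := by positivity
      have : |((t j:ℕ):ℝ) - (a:ℕ)| ≤ ((n+1 : ℕ):ℝ) := abs_le.2 ⟨by linarith, by linarith⟩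
      linarith
    · rw [Fin.sum_univ_eq_sum_range
        (fun a => ((((n+1 : ℕ):ℝ) - |((t j : ℕ):ℝ) - (a : ℕ)|) / ((n+1 : ℕ):ℝ))^k) (n+1)]
      exact row_w n s k (t j) (t j).2 hk
  calc _ ≤ ∑ _t : Fin d → Fin (n+1),
        (((n+1 : ℕ):ℝ) * (if k < 3*2^s then 1 else 1 / 2^s))^d := sum_le_sum fun t _ => h t
    _ = _ := by
      simp only [sum_const, card_univ, Fintype.card_fun, Fintype.card_fin, nsmul_eq_mul, mul_pow]
      push_cast; ring

lemma binom_le (n s d : ℕ) (hsd : n ≤ s*d) :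
    ∑ k ∈ range (n+1), (n.choose k : ℝ) * (if k < 3*2^s then (1:ℝ) else 1 / 2^s)^d
      ≤ (((n+1)^(3*2^s+1) + 1 : ℕ) : ℝ) := by
  have h : ∀ k ∈ range (n+1), (n.choose k : ℝ) * (if k < 3*2^s then (1:ℝ) else 1 / 2^s)^d
      ≤ ((n+1 : ℕ):ℝ)^(3*2^s) + (n.choose k : ℝ) / 2^n := by
    intro k _
    split_ifs with hK
    · have h1 : n.choose k ≤ (n+1)^(3*2^s) :=
        (Nat.choose_le_pow n k).trans ((Nat.pow_le_pow_left (Nat.le_succ n) k).trans
          (Nat.pow_le_pow_right (Nat.succ_pos n) hK.le))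
      have h2 : (n.choose k : ℝ) ≤ ((n+1 : ℕ):ℝ)^(3*2^s) := by exact_mod_cast h1
      have : (0:ℝ) ≤ (n.choose k : ℝ) / 2^n := by positivity
      simp only [one_pow, mul_one]; linarith
    · have h1 : ((1:ℝ) / 2^s)^d ≤ 1 / 2^n := by
        rw [div_pow, one_pow, ← pow_mul]
        exact one_div_le_one_div_of_le (by positivity) (pow_le_pow_right₀ (by norm_num) hsd)
      have h2 : (n.choose k : ℝ) * ((1:ℝ) / 2^s)^d ≤ (n.choose k : ℝ) / 2^n := by
        rw [div_eq_mul_one_div (n.choose k : ℝ)]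
        exact mul_le_mul_of_nonneg_left h1 (by positivity)
      have : (0:ℝ) ≤ ((n+1 : ℕ):ℝ)^(3*2^s) := by positivity
      linarith
  refine (sum_le_sum h).trans (le_of_eq ?_)
  rw [sum_add_distrib, ← sum_div]
  have : ∑ k ∈ range (n+1), (n.choose k : ℝ) = 2^n := by exact_mod_cast Nat.sum_range_choose n
  rw [this, div_self (by positivity)]
  simp only [sum_const, card_range, nsmul_eq_mul]
  push_cast; ring

lemma exists_omega (B : Type) [Fintype B] [DecidableEq B] (s d : ℕ)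
    (hsd : Fintype.card B ≤ s*d) :
    ∃ ω : B → Fin d → Fin (2*(Fintype.card B+1)),
      ∑ t : Fin d → Fin (Fintype.card B+1), ∑ t' : Fin d → Fin (Fintype.card B+1),
        (if Phi ω t = Phi ω t' then (1:ℝ) else 0)
      ≤ ((Fintype.card B+1 : ℕ):ℝ)^(2*d) *
        (((Fintype.card B+1)^(3*2^s+1) + 1 : ℕ) : ℝ) / 2^(Fintype.card B) := by
  set n := Fintype.card B with hn
  set m := n+1 with hm
  have hm0 : (0:ℝ) < (m:ℝ) := by positivity
  have hne : (univ : Finset (B → Fin d → Fin (2*m))).Nonempty :=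
    ⟨fun _ _ => ⟨0, by omega⟩, mem_univ _⟩
  obtain ⟨ω, -, hω⟩ := Finset.exists_le_of_sum_le (s := univ)
    (f := fun ω : B → Fin d → Fin (2*m) => ∑ t : Fin d → Fin m, ∑ t' : Fin d → Fin m,
        (if Phi ω t = Phi ω t' then (1:ℝ) else 0))
    (g := fun _ => (m:ℝ)^(2*d) * ((m^(3*2^s+1) + 1 : ℕ) : ℝ) / 2^n) hne (by
      rw [sum_comm]
      rw [sum_congr rfl (fun t _ => sum_comm)]
      simp only [coll_sum]
      rw [← hn]
      have e1 : ∀ t t' : Fin d → Fin m,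
          ((((2*m : ℕ):ℝ)^d + ∏ j, 2 * ((m:ℝ) - |((t j : ℕ):ℝ) - (t' j : ℕ)|)) / 2)^n
          = (((2*m : ℕ):ℝ)^d)^n / 2^n * ∑ k ∈ range (n+1), (n.choose k : ℝ) *
            (∏ j, (((m:ℝ) - |((t j : ℕ):ℝ) - (t' j : ℕ)|) / (m:ℝ)))^k := by
        intro t t'
        have e2 : ∏ j, 2 * ((m:ℝ) - |((t j : ℕ):ℝ) - (t' j : ℕ)|)
            = ((2*m : ℕ):ℝ)^d * ∏ j, (((m:ℝ) - |((t j : ℕ):ℝ) - (t' j : ℕ)|) / (m:ℝ)) := by
          have : ((2*m : ℕ):ℝ)^d = ∏ _j : Fin d, ((2*m : ℕ):ℝ) := by simp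
          rw [this, ← prod_mul_distrib]
          refine prod_congr rfl fun j _ => ?_
          push_cast; field_simp
        rw [e2]
        set z := ∏ j, (((m:ℝ) - |((t j : ℕ):ℝ) - (t' j : ℕ)|) / (m:ℝ))
        have e3 : (z + 1)^n = ∑ k ∈ range (n+1), (n.choose k : ℝ) * z^k := by
          rw [add_pow]
          exact sum_congr rfl fun k _ => by ring
        rw [← e3, ← div_pow, ← mul_pow]
        congr 1; ring
      simp only [e1, ← mul_sum]
      simp only [sum_const, card_univ, Fintype.card_fun, Fintype.card_fin, nsmul_eq_mul]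
      rw [← hn]
      have e4 : ∑ t : Fin d → Fin m, ∑ t' : Fin d → Fin m, ∑ k ∈ range (n+1), (n.choose k : ℝ) *
            (∏ j, (((m:ℝ) - |((t j : ℕ):ℝ) - (t' j : ℕ)|) / (m:ℝ)))^k
          ≤ (m:ℝ)^(2*d) * ((m^(3*2^s+1) + 1 : ℕ) : ℝ) := by
        rw [sum_congr rfl (fun t _ => sum_comm), sum_comm]
        simp only [← mul_sum]
        refine le_trans ?_ (mul_le_mul_of_nonneg_left (binom_le n s d hsd) (by positivity))
        rw [mul_sum]
        refine sum_le_sum fun k hk => ?_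
        have := moment_le n s d k (Nat.lt_succ_iff.1 (mem_range.1 hk))
        calc _ ≤ (n.choose k : ℝ) * ((m:ℝ)^(2*d) * (if k < 3*2^s then 1 else 1 / 2^s)^d) :=
              mul_le_mul_of_nonneg_left this (by positivity)
          _ = _ := by ring
      calc _ ≤ (((2*m : ℕ):ℝ)^d)^n / 2^n * ((m:ℝ)^(2*d) * ((m^(3*2^s+1) + 1 : ℕ) : ℝ)) :=
            mul_le_mul_of_nonneg_left e4 (by positivity)
        _ = _ := by push_cast; ring)
  exact ⟨ω, hω⟩

lemma image_large {T V : Type} [Fintype T] [DecidableEq V] (F : T → V) :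
    ((Fintype.card T : ℕ):ℝ)^2 ≤ ((univ.image F).card : ℝ) *
      ∑ t, ∑ t', (if F t = F t' then (1:ℝ) else 0) := by
  have h1 : ∑ t, ∑ t', (if F t = F t' then (1:ℝ) else 0)
      = ∑ v ∈ univ.image F, ((#{a ∈ univ | F a = v} : ℕ):ℝ)^2 := by
    have := Finset.sum_comp (s := (univ : Finset T))
      (fun v => ((#{a ∈ univ | F a = v} : ℕ):ℝ)) F
    simp only [nsmul_eq_mul, ← sq] at this
    rw [← this]
    refine sum_congr rfl fun t _ => ?_
    simp [eq_comm]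
  have h2 : ((Fintype.card T : ℕ):ℝ) = ∑ v ∈ univ.image F, ((#{a ∈ univ | F a = v} : ℕ):ℝ) := by
    have := Finset.sum_comp (s := (univ : Finset T)) (fun _ => (1:ℝ)) F
    simpa using this
  rw [h1, h2]
  exact sq_sum_le_card_mul_sum_sq

lemma translates {V : Type} [Group V] [Fintype V] [DecidableEq V] (C : Finset V) (n D : ℕ)
    (hV : Fintype.card V = 2^n) (hD : 0 < D) (hC : 2^n ≤ C.card * D) :
    ∃ U : Fin ((n+1)*D) → V, ∀ x, ∃ i, ∃ c ∈ C, x = U i * c := by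
  by_contra hcon
  push Not at hcon
  set N := (n+1)*D
  have h1 : ∀ U : Fin N → V, (1:ℝ) ≤ ∑ x : V, ∏ i, (if (U i)⁻¹ * x ∈ C then (0:ℝ) else 1) := by
    intro U
    obtain ⟨x, hx⟩ := hcon U
    have : ∏ i, (if (U i)⁻¹ * x ∈ C then (0:ℝ) else 1) = 1 := by
      refine prod_eq_one fun i _ => if_neg fun h => hx i _ h (by simp)
    calc (1:ℝ) = ∏ i, (if (U i)⁻¹ * x ∈ C then (0:ℝ) else 1) := this.symm
      _ ≤ _ := single_le_sum (f := fun x => ∏ i, (if (U i)⁻¹ * x ∈ C then (0:ℝ) else 1))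
          (fun y _ => prod_nonneg fun i _ => by split_ifs <;> norm_num) (mem_univ x)
  have h2 : ∀ x : V, ∑ U : Fin N → V, ∏ i, (if (U i)⁻¹ * x ∈ C then (0:ℝ) else 1)
      = ((2:ℝ)^n - C.card)^N := by
    intro x
    have h3 := Finset.prod_univ_sum (fun _ : Fin N => (univ : Finset V))
      (fun _ u => (if u⁻¹ * x ∈ C then (0:ℝ) else 1))
    rw [Fintype.piFinset_univ] at h3
    rw [← h3, prod_const, card_univ, Fintype.card_fin]
    congr 1
    have h4 : ∑ u : V, (if u⁻¹ * x ∈ C then (0:ℝ) else 1) = ∑ v : V, (if v ∈ C then (0:ℝ) else 1) :=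
      Fintype.sum_equiv ((Equiv.inv V).trans (Equiv.mulRight x)) _ _ (fun u => by simp)
    rw [h4]
    have h5 : ∀ v : V, (if v ∈ C then (0:ℝ) else 1) = 1 - (if v ∈ C then (1:ℝ) else 0) := by
      intro v; split_ifs <;> norm_num
    simp only [h5, sum_sub_distrib, sum_const, card_univ, hV, nsmul_eq_mul, mul_one, sum_ite_mem,
      univ_inter]
    push_cast; ring
  have h3 : ((2:ℝ)^n)^N ≤ 2^n * ((2:ℝ)^n - C.card)^N := by
    calc ((2:ℝ)^n)^N = ∑ _U : Fin N → V, (1:ℝ) := by simp [hV]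
      _ ≤ _ := sum_le_sum fun U _ => h1 U
      _ = _ := by rw [sum_comm]; simp [h2, hV]
  have hD' : (0:ℝ) < D := by exact_mod_cast hD
  have hC' : (2:ℝ)^n ≤ C.card * D := by exact_mod_cast hC
  have hCV : (C.card : ℝ) ≤ 2^n := by
    have := C.card_le_univ
    rw [hV] at this; exact_mod_cast this
  have h4 : (2:ℝ)^n - C.card ≤ 2^n * (1 - 1 / D) := by
    have : (2:ℝ)^n / D ≤ C.card := by rw [div_le_iff₀ hD']; exact hC'
    have e : (2:ℝ)^n * (1 - 1 / D) = 2^n - 2^n / D := by ring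
    rw [e]; linarith
  have h5 : (1 - 1 / (D:ℝ))^D ≤ 1 / 2 := by
    have := Real.one_sub_div_pow_le_exp_neg (n := D) (t := 1) (by exact_mod_cast hD)
    have h6 := Real.exp_neg_one_lt_d9
    linarith
  have hD1 : (0:ℝ) ≤ 1 - 1 / (D:ℝ) := by
    have : (1:ℝ) ≤ D := by exact_mod_cast hD
    rw [sub_nonneg, div_le_one hD']; exact this
  have h6 : ((2:ℝ)^n - C.card)^N ≤ ((2:ℝ)^n)^N * (1/2)^(n+1) := by
    calc _ ≤ ((2:ℝ)^n * (1 - 1 / D))^N := pow_le_pow_left₀ (by linarith) h4 N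
      _ = ((2:ℝ)^n)^N * ((1 - 1 / (D:ℝ))^D)^(n+1) := by
          rw [mul_pow, ← pow_mul, ← pow_mul, mul_comm D]
      _ ≤ _ := mul_le_mul_of_nonneg_left (pow_le_pow_left₀ (by positivity) h5 _) (by positivity)
  have h7 : (2:ℝ)^n * (((2:ℝ)^n)^N * (1/2)^(n+1)) = ((2:ℝ)^n)^N / 2 := by
    rw [pow_succ (1/2 : ℝ), one_div, inv_pow]; field_simp
  have h8 : (0:ℝ) < ((2:ℝ)^n)^N := by positivity
  have h9 := mul_le_mul_of_nonneg_left h6 (show (0:ℝ) ≤ 2^n by positivity)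
  linarith

theorem cover (B : Type) [Fintype B] [DecidableEq B] (n s d : ℕ) (hn : Fintype.card B = n)
    (hsd : n ≤ s*d) :
    ∃ (π : B → Fin d → ℕ) (U : Fin ((n+1) * ((n+1)^(3*2^s+1) + 1)) → B → ℤˣ),
      ∀ S : B → ℤˣ, ∃ i, ∃ t : Fin d → ℕ, ∀ b, S b = U i b * ∏ j, sg (π b j) (t j) := by
  subst hn
  obtain ⟨ω, hω⟩ := exists_omega B s d hsd
  have h1 := image_large (fun t => Phi ω t)
  have h2 : ((Fintype.card (Fin d → Fin (Fintype.card B+1)) : ℕ):ℝ)^2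
      = ((Fintype.card B+1 : ℕ):ℝ)^(2*d) := by
    simp only [Fintype.card_fun, Fintype.card_fin]; push_cast; ring
  rw [h2] at h1
  have h3 := h1.trans (mul_le_mul_of_nonneg_left hω (by positivity))
  generalize hD : (Fintype.card B+1)^(3*2^s+1) + 1 = D at h3 ⊢
  have hD0 : 0 < D := by rw [← hD]; positivity
  have hP : (0:ℝ) < ((Fintype.card B+1 : ℕ):ℝ)^(2*d) := by positivity
  have h4 : (2:ℝ)^(Fintype.card B) ≤ (univ.image (fun t => Phi ω t)).card * D := by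
    rw [← mul_div_assoc, le_div_iff₀ (by positivity)] at h3
    have : ((Fintype.card B+1 : ℕ):ℝ)^(2*d) * 2^(Fintype.card B)
        ≤ ((Fintype.card B+1 : ℕ):ℝ)^(2*d) * ((univ.image (fun t => Phi ω t)).card * D) := by
      linarith
    exact le_of_mul_le_mul_left this hP
  obtain ⟨U, hU⟩ := translates (univ.image (fun t => Phi ω t)) (Fintype.card B) D (by simp) hD0
    (by exact_mod_cast h4)
  refine ⟨fun b j => ω b j, U, fun S => ?_⟩
  obtain ⟨i, c, hc, rfl⟩ := hU S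
  obtain ⟨t, -, rfl⟩ := mem_image.1 hc
  exact ⟨i, fun j => t j, fun b => rfl⟩

end Pool.Agent.H583Z.BD
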