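import Mathlib

namespace Pool.Agent.H583Z.BD

/-- A Boolean realizer of size `d`: `d` linear orders on the ground set and a function `τ` of the
`d` comparison bits deciding the strict order of the poset on distinct points. -/
def HasBoolRealizer (X : Type) [PartialOrder X] (d : ℕ) : Prop :=
  ∃ (L : Fin d → LinearOrder X) (τ : (Fin d → Bool) → Bool),
    ∀ x y : X, x ≠ y →
      (x < y ↔ τ (fun i => @decide ((L i).lt x y) ((L i).toDecidableLT x y)) = true)

/-- Boolean dimension: the least `d ≥ 1` with a Boolean realizer of size `d`. -/
noncomputable def bdim (X : Type) [PartialOrder X] : ℕ :=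
  sInf {d : ℕ | 1 ≤ d ∧ HasBoolRealizer X d}

/-- The ground set is an antichain together with `n` further points. -/
def AntichainPlus (X : Type) [PartialOrder X] (n : ℕ) : Prop :=
  ∃ B : Finset X, B.card = n ∧ IsAntichain (· ≤ ·) ((B : Set X)ᶜ)

/-- The maximum Boolean dimension of a finite poset that is an antichain plus `n` points. -/
noncomputable def fmax (n : ℕ) : ℕ :=
  sSup {d : ℕ | ∃ (X : Type) (_ : Fintype X) (_ : PartialOrder X), AntichainPlus X n ∧ bdim X = d}

end Pool.Agent.H583Z.BD
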