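import Pool.Agent.H583Z.BD.Defs
import Pool.Agent.H583Z.BD.Cover

open Finset

namespace Pool.Agent.H583Z.BD

lemma exists_order {X : Type} (k c : X → ℤ) (h : Function.Injective fun x => (k x, c x)) :
    ∃ L : LinearOrder X, ∀ x y, L.lt x y ↔ k x < k y ∨ (k x = k y ∧ c x < c y) := by
  have h' : Function.Injective fun x => toLex (k x, c x) := fun x y hxy => h (toLex.injective hxy)
  refine ⟨LinearOrder.lift' (fun x => toLex (k x, c x)) h', fun x y => ?_⟩
  exact Prod.Lex.toLex_lt_toLex

lemma realizer_of_determ {X : Type} [PartialOrder X] {ι : Type} [Fintype ι]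
    (L0 : LinearOrder X) (L : ι → LinearOrder X) (d : ℕ) (hd : Fintype.card ι ≤ d)
    (h : ∀ x y x' y' : X, x ≠ y → x' ≠ y' → (∀ i, (L i).lt x y ↔ (L i).lt x' y') →
      x < y → x' < y') : HasBoolRealizer X d := by
  classical
  obtain ⟨e⟩ : Nonempty (ι ↪ Fin d) := Function.Embedding.nonempty_of_card_le (by simpa using hd)
  let L' : Fin d → LinearOrder X := Function.extend e L (fun _ => L0)
  have hL' : ∀ i, L' (e i) = L i := fun i => e.injective.extend_apply _ _ i
  refine ⟨L', fun q => decide (∃ x y : X, x ≠ y ∧ x < y ∧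
    q = fun i => @decide ((L' i).lt x y) ((L' i).toDecidableLT x y)), fun x y hxy => ?_⟩
  simp only [decide_eq_true_eq]
  refine ⟨fun hlt => ⟨x, y, hxy, hlt, rfl⟩, ?_⟩
  rintro ⟨x', y', hxy', hlt, hq⟩
  refine h x' y' x y hxy' hxy (fun i => ?_) hlt
  have := congrFun hq (e i)
  simp only [decide_eq_decide] at this
  rw [hL'] at this
  exact this.symm

lemma bits_determ (a b a' b' : Bool) (u v u' v' : ℤ) (h : u ≠ v) (h' : u' ≠ v')
    (h0 : ((a.toInt < b.toInt ∨ (a.toInt = b.toInt ∧ u < v)) ↔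
      (a'.toInt < b'.toInt ∨ (a'.toInt = b'.toInt ∧ u' < v'))))
    (h1 : ((-a.toInt < -b.toInt ∨ (-a.toInt = -b.toInt ∧ u < v)) ↔
      (-a'.toInt < -b'.toInt ∨ (-a'.toInt = -b'.toInt ∧ u' < v'))))
    (h2 : ((a.toInt < b.toInt ∨ (a.toInt = b.toInt ∧
        (if a then -u else u) < (if b then -v else v))) ↔
      (a'.toInt < b'.toInt ∨ (a'.toInt = b'.toInt ∧
        (if a' then -u' else u') < (if b' then -v' else v'))))) :
    a = a' ∧ b = b' := by
  cases a <;> cases b <;> cases a' <;> cases b' <;> simp [Bool.toInt] at * <;> omega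

/-- labels with at most `2 ^ r` values and `d` integer keys give a realizer of size `d + 3 r` -/
lemma realizer_of_labels {X : Type} [Fintype X] [PartialOrder X] {Λ : Type} [Fintype Λ]
    (lab : X → Λ) (d r : ℕ) (hr : Fintype.card Λ ≤ 2^r) (key : Fin d → X → ℤ)
    (h : ∀ x y x' y' : X, x ≠ y → x' ≠ y' → lab x = lab x' → lab y = lab y' →
      (∀ j, key j x ≠ key j y → key j x' ≠ key j y' →
        (key j x < key j y ↔ key j x' < key j y')) → x < y → x' < y') :
    HasBoolRealizer X (d + 3 * r) := by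
  classical
  obtain ⟨β⟩ : Nonempty (Λ ↪ (Fin r → Bool)) :=
    Function.Embedding.nonempty_of_card_le (by simpa using hr)
  let e : X → ℤ := fun x => ((Fintype.equivFin X x : ℕ) : ℤ)
  have he : Function.Injective e := fun x y hxy =>
    (Fintype.equivFin X).injective (Fin.ext (by simpa [e] using hxy))
  have inj1 : ∀ k : X → ℤ, Function.Injective fun x => (k x, e x) :=
    fun k x y hxy => he (congrArg Prod.snd hxy)
  have inj2 : ∀ i, Function.Injective fun x => ((β (lab x) i).toInt,
      if β (lab x) i then -e x else e x) := by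
    intro i x y hxy
    simp only [Prod.mk.injEq] at hxy
    apply he
    revert hxy
    cases β (lab x) i <;> cases β (lab y) i <;> simp [Bool.toInt]
  choose LK hLK using fun j => exists_order (key j) e (inj1 _)
  choose L0 hL0 using fun i => exists_order (fun x => (β (lab x) i).toInt) e (inj1 _)
  choose L1 hL1 using fun i => exists_order (fun x => -(β (lab x) i).toInt) e (inj1 _)
  choose L2 hL2 using fun i => exists_order _ _ (inj2 i)
  obtain ⟨Lz, -⟩ := exists_order (fun _ => 0) e (inj1 _)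
  refine realizer_of_determ Lz (ι := Fin d ⊕ Fin r ⊕ Fin r ⊕ Fin r)
    (Sum.elim LK (Sum.elim L0 (Sum.elim L1 L2))) _ (by simp; omega) ?_
  intro x y x' y' hxy hxy' hq
  have hb : ∀ i, β (lab x) i = β (lab x') i ∧ β (lab y) i = β (lab y') i := by
    intro i
    have q0 : (L0 i).lt x y ↔ (L0 i).lt x' y' := hq (Sum.inr (Sum.inl i))
    have q1 : (L1 i).lt x y ↔ (L1 i).lt x' y' := hq (Sum.inr (Sum.inr (Sum.inl i)))
    have q2 : (L2 i).lt x y ↔ (L2 i).lt x' y' := hq (Sum.inr (Sum.inr (Sum.inr i)))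
    rw [hL0, hL0] at q0
    rw [hL1, hL1] at q1
    rw [hL2, hL2] at q2
    exact bits_determ _ _ _ _ _ _ _ _ (he.ne hxy) (he.ne hxy') q0 q1 q2
  refine h x y x' y' hxy hxy' (β.injective (funext fun i => (hb i).1))
    (β.injective (funext fun i => (hb i).2)) fun j hj hj' => ?_
  have q : (LK j).lt x y ↔ (LK j).lt x' y' := hq (Sum.inl j)
  rw [hLK, hLK] at q
  simpa [hj, hj'] using q

theorem upper_fin (X : Type) [Fintype X] [PartialOrder X] (n s d r : ℕ) (hX : AntichainPlus X n)
    (hsd : n ≤ s * d) (hr : n + (n+1) * ((n+1)^(3*2^s+1) + 1) ≤ 2^r) :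
    HasBoolRealizer X (d + 3 * r) := by
  classical
  obtain ⟨B, hB, hA⟩ := hX
  obtain ⟨π, U, hU⟩ := cover B n s d (by simpa using hB) hsd
  choose idx thr hthr using fun x : X => hU (fun b : B => if x < b ∨ (b:X) < x then -1 else 1)
  have hanti : ∀ x y, x ∉ B → y ∉ B → ¬ x < y := fun x y hx hy hlt =>
    hA (by simpa using hx) (by simpa using hy) hlt.ne hlt.le
  let lab : X → B ⊕ Fin ((n+1) * ((n+1)^(3*2^s+1) + 1)) :=
    fun x => if h : x ∈ B then Sum.inl ⟨x, h⟩ else Sum.inr (idx x)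
  let key : Fin d → X → ℤ :=
    fun j x => if h : x ∈ B then 2 * (π ⟨x, h⟩ j : ℤ) + 1 else 2 * (thr x j : ℤ)
  have labB : ∀ x x', lab x = lab x' → x ∈ B → x' = x := by
    intro x x' h hx
    by_cases hx' : x' ∈ B
    · simp only [lab, dif_pos hx, dif_pos hx', Sum.inl.injEq, Subtype.mk.injEq] at h
      exact h.symm
    · simp [lab, hx, hx'] at h
  have labA : ∀ x x', lab x = lab x' → x ∉ B → x' ∉ B ∧ idx x = idx x' := by
    intro x x' h hx
    by_cases hx' : x' ∈ B
    · simp [lab, hx, hx'] at h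
    · simp only [lab, dif_neg hx, dif_neg hx', Sum.inr.injEq] at h
      exact ⟨hx', h⟩
  have main : ∀ x x' y (hy : y ∈ B), idx x = idx x' →
      (∀ j, thr x j ≤ π ⟨y, hy⟩ j ↔ thr x' j ≤ π ⟨y, hy⟩ j) →
      (x < y ∨ y < x) → (x' < y ∨ y < x') := by
    intro x x' y hy hi hj hc
    have h1 := hthr x ⟨y, hy⟩
    have h2 := hthr x' ⟨y, hy⟩
    have h3 : ∏ j, sg (π ⟨y, hy⟩ j) (thr x j) = ∏ j, sg (π ⟨y, hy⟩ j) (thr x' j) :=
      prod_congr rfl fun j _ => by simp only [sg, hj j]
    rw [← hi, ← h3, ← h1] at h2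
    by_contra hc'
    simp only [if_pos hc, if_neg hc'] at h2
    exact absurd h2 (by decide)
  refine realizer_of_labels lab d r (by simpa [hB] using hr) key ?_
  intro x y x' y' hxy hxy' hx hy hk hlt
  by_cases hxB : x ∈ B <;> by_cases hyB : y ∈ B
  · rw [labB x x' hx hxB, labB y y' hy hyB]; exact hlt
  · obtain rfl := labB x x' hx hxB
    obtain ⟨hy'B, hi⟩ := labA y y' hy hyB
    have := main y y' x' hxB hi (fun j => by
      have := hk j
      simp only [key, dif_pos hxB, dif_neg hyB, dif_neg hy'B] at this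
      have := this (by omega) (by omega)
      omega) (Or.inr hlt)
    rcases this with h | h
    · exact absurd (h.trans hlt) (hanti _ _ hy'B hyB)
    · exact h
  · obtain rfl := labB y y' hy hyB
    obtain ⟨hx'B, hi⟩ := labA x x' hx hxB
    have := main x x' y' hyB hi (fun j => by
      have := hk j
      simp only [key, dif_pos hyB, dif_neg hxB, dif_neg hx'B] at this
      have := this (by omega) (by omega)
      omega) (Or.inl hlt)
    rcases this with h | h
    · exact h
    · exact absurd (hlt.trans h) (hanti _ _ hxB hx'B)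
  · exact absurd hlt (hanti _ _ hxB hyB)

lemma label_bound (n s : ℕ) :
    n + (n+1) * ((n+1)^(3*2^s+1) + 1) ≤ 2^((Nat.log 2 n + 1) * (3*2^s+2) + 2) := by
  have h1 : n + 1 ≤ 2^(Nat.log 2 n + 1) := Nat.lt_pow_succ_log_self (by norm_num) n
  have h2 : (n+1)^(3*2^s+2) ≤ 2^((Nat.log 2 n + 1) * (3*2^s+2)) := by
    rw [pow_mul]; exact Nat.pow_le_pow_left h1 _
  have h3 : n + 1 ≤ (n+1)^(3*2^s+2) := Nat.le_self_pow (by omega) _
  have h4 : (n+1) * (n+1)^(3*2^s+1) = (n+1)^(3*2^s+2) := by ring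
  rw [pow_add 2, mul_add, h4]
  omega

theorem bdim_le (X : Type) [Fintype X] [PartialOrder X] (n s : ℕ) (hs : 0 < s)
    (hX : AntichainPlus X n) :
    1 ≤ n / s + 1 + 3 * ((Nat.log 2 n + 1) * (3*2^s+2) + 2) ∧
      HasBoolRealizer X (n / s + 1 + 3 * ((Nat.log 2 n + 1) * (3*2^s+2) + 2)) :=
  ⟨Nat.le_add_right_of_le (Nat.le_add_left 1 _), upper_fin X n s _ _ hX (Nat.lt_mul_div_succ n hs).le (label_bound n s)⟩

/-- the extremal poset: subsets below the points they contain -/
def Ext (n : ℕ) : Type := (Fin n → Bool) ⊕ Fin n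

instance (n : ℕ) : Fintype (Ext n) := inferInstanceAs (Fintype ((Fin n → Bool) ⊕ Fin n))

/-- strict relation of the extremal poset -/
def extLt {n : ℕ} : Ext n → Ext n → Prop
  | Sum.inl S, Sum.inr i => S i = true
  | _, _ => False

instance (n : ℕ) : PartialOrder (Ext n) where
  le x y := x = y ∨ extLt x y
  le_refl x := Or.inl rfl
  le_trans x y z h1 h2 := by
    rcases h1 with rfl | h1
    · exact h2
    rcases h2 with rfl | h2
    · exact Or.inr h1
    rcases x with x | x <;> rcases y with y | y <;> rcases z with z | z <;> simp_all [extLt]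
  le_antisymm x y h1 h2 := by
    rcases h1 with rfl | h1
    · rfl
    rcases h2 with rfl | h2
    · rfl
    rcases x with x | x <;> rcases y with y | y <;> simp_all [extLt]

lemma ext_lt {n : ℕ} (S : Fin n → Bool) (i : Fin n) :
    @LT.lt (Ext n) _ (Sum.inl S) (Sum.inr i) ↔ S i = true := by
  refine (@lt_iff_le_and_ne (Ext n) _ _ _).trans ?_
  constructor
  · rintro ⟨h | h, h'⟩
    · exact absurd h h'
    · exact h
  · intro h
    exact ⟨Or.inr h, Sum.inl_ne_inr⟩

lemma ext_anti (n : ℕ) : AntichainPlus (Ext n) n := by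
  classical
  refine ⟨univ.map ⟨fun i : Fin n => (Sum.inr i : Ext n), Sum.inr_injective⟩, by simp, ?_⟩
  intro x hx y hy hxy hle
  rcases hle with h | h
  · exact hxy h
  rcases x with x | x <;> rcases y with y | y
  · exact h
  · exact hy (by simp only [coe_map, coe_univ, Set.image_univ]; exact ⟨y, rfl⟩)
  · exact h
  · exact h

lemma ext_lower (n d : ℕ) (h : HasBoolRealizer (Ext n) d) : 2^n ≤ (n+1)^d := by
  classical
  obtain ⟨L, τ, hτ⟩ := h
  let up : Fin d → (Fin n → Bool) → Finset (Fin n) :=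
    fun j S => univ.filter fun i => (L j).lt (Sum.inl S) (Sum.inr i)
  let F : (Fin n → Bool) → Fin d → Fin (n+1) := fun S j =>
    ⟨(up j S).card, Nat.lt_succ_of_le (by simpa using (up j S).card_le_univ)⟩
  have hnest : ∀ j S S', (L j).le (Sum.inl S) (Sum.inl S') → up j S' ⊆ up j S := by
    intro j S S' hle i hi
    simp only [up, mem_filter, mem_univ, true_and] at hi ⊢
    exact @lt_of_le_of_lt (Ext n) (L j).toPreorder _ _ _ hle hi
  have hF : Function.Injective F := by
    intro S S' hSS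
    have hup : ∀ j, up j S = up j S' := by
      intro j
      have hc : (up j S).card = (up j S').card := congrArg Fin.val (congrFun hSS j)
      rcases (L j).le_total (Sum.inl S) (Sum.inl S') with h | h
      · exact (eq_of_subset_of_card_le (hnest j S S' h) hc.le).symm
      · exact eq_of_subset_of_card_le (hnest j S' S h) hc.ge
    funext i
    have h1 := hτ (Sum.inl S) (Sum.inr i) Sum.inl_ne_inr
    have h2 := hτ (Sum.inl S') (Sum.inr i) Sum.inl_ne_inr
    have h3 : (fun j => @decide ((L j).lt (Sum.inl S) (Sum.inr i)) ((L j).toDecidableLT _ _))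
        = (fun j => @decide ((L j).lt (Sum.inl S') (Sum.inr i)) ((L j).toDecidableLT _ _)) := by
      funext j
      simp only [decide_eq_decide]
      have := Finset.ext_iff.1 (hup j) i
      simpa [up] using this
    rw [ext_lt, h3, ← h2, ext_lt] at h1
    exact Bool.eq_iff_iff.2 h1
  simpa using Fintype.card_le_of_injective F hF

theorem fmax_le (n s : ℕ) (hs : 0 < s) :
    fmax n ≤ n / s + 1 + 3 * ((Nat.log 2 n + 1) * (3*2^s+2) + 2) := by
  refine csSup_le ⟨_, Ext n, inferInstance, inferInstance, ext_anti n, rfl⟩ ?_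
  rintro _ ⟨X, _, _, hX, rfl⟩
  exact Nat.sInf_le (bdim_le X n s hs hX)

theorem le_fmax (n : ℕ) : 2^n ≤ (n+1)^(fmax n) := by
  have h1 : bdim (Ext n) ≤ fmax n := by
    refine le_csSup ⟨n / 1 + 1 + 3 * ((Nat.log 2 n + 1) * (3*2^1+2) + 2), ?_⟩
      ⟨Ext n, inferInstance, inferInstance, ext_anti n, rfl⟩
    rintro _ ⟨X, _, _, hX, rfl⟩
    exact Nat.sInf_le (bdim_le X n 1 one_pos hX)
  have h2 : bdim (Ext n) ∈ {d : ℕ | 1 ≤ d ∧ HasBoolRealizer (Ext n) d} :=
    Nat.sInf_mem ⟨_, bdim_le (Ext n) n 1 one_pos (ext_anti n)⟩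
  exact (ext_lower n _ h2.2).trans (Nat.pow_le_pow_right (Nat.succ_pos n) h1)

end Pool.Agent.H583Z.BD
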